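import Pool.Agent.H999.Uni3.Iso

/-!
# The lattices in dimension three which minimise the Epstein zeta function
-/

set_option autoImplicit false

namespace Pool.Agent.Results.MP_34eea4_nt.FccUnique

open Pool.Agent.H999.Ep3 (IsLattice1 fcc)
open Pool.Agent.H999.Uni3 (zeta)

/-- For every real `s > 3 / 2` the lattices of determinant one in `ℝ³` at which `ζ(·, s)` has a global
minimum are exactly the isometric copies of the face-centred cubic lattice of determinant one. -/
theorem result (s : ℝ) (hs : 3 / 2 < s) :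
    IsLattice1 fcc ∧
    (∀ L, IsLattice1 L → Summable fun x : {x : EuclideanSpace ℝ (Fin 3) // x ∈ L ∧ x ≠ 0} =>
      ‖x.1‖ ^ (-(2 * s))) ∧
    ∀ L, IsLattice1 L →
      ((∀ L', IsLattice1 L' → zeta L s ≤ zeta L' s) ↔
        ∃ φ : EuclideanSpace ℝ (Fin 3) ≃ₗᵢ[ℝ] EuclideanSpace ℝ (Fin 3), φ '' fcc = L) := by
  have hF : IsLattice1 fcc := ⟨_, Pool.Agent.H999.Ep3.g13_detF, Pool.Agent.H999.Ep3.fs_fcc⟩
  refine ⟨hF, fun L hL => (Pool.Agent.H999.Uni3.main s hs L hL).1, fun L hL => ?_⟩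
  obtain ⟨-, h1, h2⟩ := Pool.Agent.H999.Uni3.main s hs L hL
  rw [← h2]
  constructor
  · intro h
    exact le_antisymm (h fcc hF) h1
  · intro h L' hL'
    rw [h]
    exact (Pool.Agent.H999.Uni3.main s hs L' hL').2.1

end Pool.Agent.Results.MP_34eea4_nt.FccUnique
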